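import Pool.Agent.Lib.MP_639284_nt.Weil

/-! The group of leading coefficients and the `L`-polynomials of its characters. -/

namespace Pool.Agent.FW

open Polynomial Finset Filter Pool.Agent.Lib.MP_639284_nt Pool.Agent.Lib.MP_639284_nt.Class
open Pool.Agent.Shared.HasseDavenport (mon mem_mon)

variable {F : Type} [Field F] [Finite F]

/-- `cl` classifies monic polynomials by their first `m + 1` coefficients -/
structure Cls {G : Type} [AddCommGroup G] (m : ℕ) (cl : F[X] → G) : Prop where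
  mul : ∀ P Q : F[X], P.Monic → Q.Monic → cl (P * Q) = cl P + cl Q
  eq : ∀ P Q : F[X], P.Monic → Q.Monic → (cl P = cl Q ↔ X ^ (m + 1) ∣ P.reverse - Q.reverse)
  surj : ∀ γ, ∃ P ∈ mon F m, cl P = γ

theorem exists_grp (F : Type) [Field F] [Finite F] (m : ℕ) :
    ∃ (G : Type) (_ : AddCommGroup G) (_ : Fintype G) (cl : F[X] → G), Cls m cl := by
  classical
  have hm : (X ^ (m + 1) : F[X]).Monic := monic_X_pow _
  have := hm.finite_adjoinRoot
  have : Finite (AdjoinRoot (X ^ (m + 1) : F[X])) := Module.finite_of_finite F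
  let ε : AdjoinRoot (X ^ (m + 1) : F[X]) →+* F := AdjoinRoot.lift (RingHom.id F) 0 (by simp)
  have hε : ∀ Q, ε (AdjoinRoot.mk _ Q) = Q.coeff 0 := fun Q => by
    simp [ε, coeff_zero_eq_eval_zero]
  have hu : ∀ P : F[X], P.Monic → IsUnit (AdjoinRoot.mk (X ^ (m + 1)) P.reverse) := fun P hP => by
    rw [← divX_mul_X_add P.reverse, coeff_zero_reverse, hP, C_1, map_add, map_one, map_mul]
    refine IsNilpotent.isUnit_add_one ((Commute.all _ _).isNilpotent_mul_left ⟨m + 1, ?_⟩)
    rw [← map_pow, AdjoinRoot.mk_self]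
  let G := (Units.map ε.toMonoidHom).ker
  let cl : F[X] → G := fun P => if h : P.Monic then ⟨(hu P h).unit, Units.ext (by
    simp [hε, h.leadingCoeff])⟩ else 1
  have hc : ∀ P : F[X], P.Monic → ((cl P).1 : AdjoinRoot (X ^ (m + 1) : F[X])) =
      AdjoinRoot.mk _ P.reverse := fun P h => by simp [cl, h]
  refine ⟨Additive G, inferInstance, Fintype.ofFinite _, fun P => Additive.ofMul (cl P),
    fun P Q hP hQ => congrArg Additive.ofMul (Subtype.ext (Units.ext ?_)), fun P Q hP hQ => ?_,
    fun γ => ?_⟩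
  · simp [hc, hP, hQ, hP.mul hQ, reverse_mul_of_domain]
  · rw [Additive.ofMul.injective.eq_iff, Subtype.ext_iff, Units.ext_iff, hc P hP, hc Q hQ,
      AdjoinRoot.mk_eq_mk]
  · obtain ⟨Q, hQ⟩ := AdjoinRoot.mk_surjective (γ.toMul.1 : AdjoinRoot (X ^ (m + 1) : F[X]))
    have h1 : AdjoinRoot.mk (X ^ (m + 1)) (Q %ₘ X ^ (m + 1)) = γ.toMul.1 := by
      rw [← hQ, AdjoinRoot.mk_eq_mk, modByMonic_eq_sub_mul_div]
      simp
    have h2 : (Q %ₘ X ^ (m + 1)).natDegree ≤ m := by
      have := degree_modByMonic_lt Q hm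
      rw [degree_X_pow] at this
      exact natDegree_le_of_degree_le (Order.le_of_lt_succ (by exact_mod_cast this))
    have h3 : (reflect m (Q %ₘ X ^ (m + 1))).coeff m = 1 := by
      rw [coeff_reflect, revAt_le le_rfl, Nat.sub_self, ← hε, h1]
      exact congrArg Units.val γ.toMul.2
    have h4 : (reflect m (Q %ₘ X ^ (m + 1))).natDegree ≤ m :=
      natDegree_reflect_le.trans (max_le le_rfl h2)
    have h5 := natDegree_eq_of_le_of_coeff_ne_zero h4 (by rw [h3]; exact one_ne_zero)
    have h6 := monic_of_natDegree_le_of_coeff_eq_one m h4 h3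
    refine ⟨_, mem_mon.2 ⟨h6, h5⟩, congrArg Additive.ofMul (Subtype.ext (Units.ext ?_))⟩
    rw [hc _ h6, reverse, h5, reflect_reflect, h1]
    rfl

theorem card_mon_le (m : ℕ) : #(mon F m) ≤ Nat.card F ^ m := by
  have := Fintype.ofFinite F
  have h := card_le_card_of_injOn (s := mon F m) (t := univ) (fun P (i : Fin m) => P.coeff i)
    (fun _ _ => mem_univ _) fun P hP Q hQ e => by
      obtain ⟨a, b⟩ := mem_mon.1 hP
      obtain ⟨c, d⟩ := mem_mon.1 hQ
      ext i
      rcases lt_trichotomy i m with h | rfl | h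
      · exact congrFun e ⟨i, h⟩
      · rw [← b, a.coeff_natDegree, b, ← d, c.coeff_natDegree]
      · rw [coeff_eq_zero_of_natDegree_lt (by omega), coeff_eq_zero_of_natDegree_lt (by omega)]
  simpa using h

namespace Cls

variable {G : Type} [AddCommGroup G] [Fintype G] {m : ℕ} {cl : F[X] → G} (h : Cls m cl)
include h

theorem card_le : Fintype.card G ≤ Nat.card F ^ m := by
  classical
  exact (card_le_card_of_surjOn (s := mon F m) (t := univ) cl fun γ _ => h.surj γ).trans
    (card_mon_le m)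

omit [Fintype G] in
theorem one : cl 1 = 0 := by simpa using h.mul 1 1 monic_one monic_one

omit [Fintype G] in
theorem pow {P : F[X]} (hP : P.Monic) (n : ℕ) : cl (P ^ n) = n • cl P := by
  induction n with
  | zero => simp [h.one]
  | succ n ih => rw [pow_succ, h.mul _ _ (hP.pow n) hP, ih, succ_nsmul]

omit [Fintype G] in
theorem degree_lt {P Q : F[X]} {n : ℕ} (hP : P ∈ mon F n) (hQ : Q ∈ mon F n) (e : cl P = cl Q) :
    (P - Q).degree < (n - m : ℕ) := by
  obtain ⟨a, b⟩ := mem_mon.1 hP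
  obtain ⟨c, d⟩ := mem_mon.1 hQ
  rw [h.eq P Q a c, X_pow_dvd_iff] at e
  refine (degree_lt_iff_coeff_zero _ _).2 fun j hj => ?_
  rcases le_or_gt j n with h1 | h1
  · have := e (n - j) (by omega)
    rwa [coeff_sub, coeff_reverse, coeff_reverse, b, d, revAt_le (by omega), Nat.sub_sub_self h1,
      ← coeff_sub] at this
  · rw [coeff_sub, coeff_eq_zero_of_natDegree_lt (by omega),
      coeff_eq_zero_of_natDegree_lt (by omega), sub_zero]

theorem sum_mon {χ : AddChar G ℂ} (hχ : χ ≠ 0) {n : ℕ} (hn : m ≤ n) :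
    ∑ P ∈ mon F n, χ (cl P) = 0 := by
  classical
  have := Fintype.ofFinite F
  induction n, hn using Nat.le_induction with
  | base =>
    rw [← AddChar.sum_eq_zero_iff_ne_zero.2 hχ]
    refine sum_bij (fun P _ => cl P) (fun _ _ => mem_univ _) (fun P hP Q hQ e => ?_)
      (fun γ _ => by simpa using h.surj γ) fun _ _ => rfl
    have := h.degree_lt hP hQ e
    rwa [Nat.sub_self, Nat.cast_zero, Nat.WithBot.lt_zero_iff, degree_eq_bot, sub_eq_zero] at this
  | succ n hn ih =>
    have key : ∀ P ∈ mon F n, ∀ c : F, P * X + C c ∈ mon F (n + 1) := fun P hP c => by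
      obtain ⟨a, b⟩ := mem_mon.1 hP
      have h1 := (natDegree_mul_X a.ne_zero).trans (congrArg (· + 1) b)
      refine mem_mon.2 ⟨(a.mul monic_X).add_of_left (degree_C_le.trans_lt ?_), by
        rw [natDegree_add_C, h1]⟩
      exact natDegree_pos_iff_degree_pos.1 (by omega)
    have e : ∑ P ∈ mon F (n + 1), χ (cl P) = ∑ y ∈ mon F n ×ˢ (univ : Finset F), χ (cl y.1) := by
      refine (sum_nbij' (fun y => y.1 * X + C y.2) (fun P => (P.divX, P.coeff 0))
        (fun y hy => key _ (mem_product.1 hy).1 _) (fun P hP => ?_) (fun y _ => ?_)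
        (fun P _ => divX_mul_X_add P) fun y hy => ?_).symm
      · obtain ⟨a, b⟩ := mem_mon.1 hP
        have h1 : P.divX.natDegree = n := by rw [natDegree_divX_eq_natDegree_tsub_one, b]; rfl
        refine mem_product.2 ⟨mem_mon.2 ⟨?_, h1⟩, mem_univ _⟩
        rw [Monic, leadingCoeff, h1, coeff_divX, ← b, a.coeff_natDegree]
      · ext <;> simp [coeff_divX, coeff_C]
      · have h1 := (mem_product.1 hy).1
        obtain ⟨a, b⟩ := mem_mon.1 h1
        congr 1
        rw [h.eq _ _ a (mem_mon.1 (key _ h1 y.2)).1, reverse_add_C, reverse_mul_X,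
          natDegree_mul_X a.ne_zero, sub_add_cancel_left, dvd_neg]
        exact (pow_dvd_pow X (by omega)).mul_left _
    rw [e, sum_product_right]
    simp [ih]

end Cls

/-- the monic polynomial of degree `s` attached to a point -/
noncomputable def nm (F : Type) [Field F] {Ω : Type} [Field Ω] [Algebra F Ω] (s : ℕ) (x : Ω) : F[X] :=
  minpoly F x ^ (s / (minpoly F x).natDegree)

theorem lpoly (Ω : Type) [Field Ω] [Algebra F Ω] [IsAlgClosed Ω] (W : F[X] → ℂ) (m : ℕ)
    (w1 : W 1 = 1) (wm : ∀ P Q : F[X], P.Monic → Q.Monic → W (P * Q) = W P * W Q)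
    (h0 : ∀ n, m ≤ n → ∑ P ∈ mon F n, W P = 0) :
    ∃ (d : ℕ) (α : Fin d → ℂ), d < m ∧ ∀ s, 0 < s →
      ∑ᶠ x ∈ {x : Ω | x ^ Nat.card F ^ s = x}, W (minpoly F x) ^ (s / (minpoly F x).natDegree) =
        -∑ i, α i ^ s := by
  have e1 := ld_of ((euler F F[X] Ω (lineStr F)).2.2 (wt W)
    (by rw [← Ideal.span_singleton_one, wt_span W monic_one, w1]) fun I J hI hJ => by
      obtain ⟨P, hP, rfl⟩ := exists_monic hI
      obtain ⟨Q, hQ, rfl⟩ := exists_monic hJ
      rw [Ideal.span_singleton_mul_span_singleton, wt_span W hP, wt_span W hQ,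
        wt_span W (hP.mul hQ), wm P Q hP hQ])
  have a0 : aSum F (wt W) 0 = 1 := by
    rw [aSum_zero (lineStr F), ← Ideal.span_singleton_one, wt_span W monic_one, w1]
  have hm : 0 < m := Nat.pos_of_ne_zero fun e => by
    rw [aSum_wt, h0 0 e.le] at a0
    exact zero_ne_one a0
  set L := PowerSeries.trunc m (PowerSeries.mk (aSum F (wt W))) with hL
  have e2 : PowerSeries.mk (aSum F (wt W)) = L := by
    ext n
    rw [Polynomial.coeff_coe, hL, PowerSeries.coeff_trunc]
    split_ifs with hn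
    · rfl
    · rw [PowerSeries.coeff_mk, aSum_wt, h0 n (not_lt.1 hn)]
  have c0 : L.coeff 0 = 1 := by rw [hL, PowerSeries.coeff_trunc, if_pos hm, PowerSeries.coeff_mk, a0]
  have hL0 : L ≠ 0 := fun e => by simp [e] at c0
  have hr : L.reverse.Monic := by
    rw [Monic, reverse_leadingCoeff, trailingCoeff, natTrailingDegree_eq_zero.2 (Or.inr (by
      rw [c0]; exact one_ne_zero)), c0]
  have hd : L.reverse.natDegree = L.natDegree := by
    rw [reverse_natDegree, natTrailingDegree_eq_zero.2 (Or.inr (by rw [c0]; exact one_ne_zero))]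
    rfl
  obtain ⟨l, hl⟩ := Quot.exists_rep L.reverse.roots
  have h1 := (IsAlgClosed.splits L.reverse).eq_prod_roots_of_monic hr
  have h2 : l.length = L.natDegree := by
    rw [← hd, ← IsAlgClosed.card_roots_eq_natDegree, ← hl]
    rfl
  have h3 : L = ∏ i : Fin l.length, (1 - C l[i] * X) := by
    have h4 : ∀ l : List ℂ, (l.map fun a => X - C a).prod.reverse =
        (l.map fun a => 1 - C a * X).prod := fun l => by
      induction l with
      | nil => simpa using reverse_C (1 : ℂ)
      | cons a l ih =>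
        rw [List.map_cons, List.prod_cons, reverse_mul_of_domain, ih, List.map_cons, List.prod_cons,
          sub_eq_add_neg, ← C_neg, reverse_add_C]
        simp [reverse, sub_eq_add_neg]
    refine Eq.trans ?_ (Fin.prod_univ_fun_getElem l fun a => 1 - C a * X).symm
    rw [← h4, ← Multiset.prod_coe, ← Multiset.map_coe]
    rw [show (l : Multiset ℂ) = L.reverse.roots from hl, ← h1, reverse, hd, reverse,
      reflect_reflect]
  refine ⟨l.length, fun i => l[i], ?_, fun s hs => ?_⟩
  · rw [h2, natDegree_lt_iff_degree_lt hL0]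
    exact PowerSeries.degree_trunc_lt _ _
  have e3 := ld_prod univ fun i : Fin l.length => l[i]
  have e4 : (∏ i : Fin l.length, (1 - PowerSeries.C l[i] * PowerSeries.X) : PowerSeries ℂ) =
      PowerSeries.mk (aSum F (wt W)) := by
    rw [e2, h3, ← Polynomial.coeToPowerSeries.ringHom_apply, map_prod]
    simp
  rw [e4] at e3
  have e5 := mul_right_cancel₀ (fun h0 => by
    simpa [a0] using congrArg (PowerSeries.coeff 0) h0) (e1.symm.trans e3)
  have e6 := congrArg (PowerSeries.coeff s) e5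
  simp only [ser, PowerSeries.coeff_mk, if_neg hs.ne'] at e6
  rw [← gSum_wt Ω W hs, e6]

theorem norm_le_coef {r : ℝ} (hr : 0 < r) (t : Finset ℂ) : ∀ (c : ℂ → ℂ) (K : ℝ),
    (∀ᶠ n in atTop, ‖∑ a ∈ t, c a * a ^ n‖ ≤ K * r ^ n) → ∀ a ∈ t, c a ≠ 0 → ‖a‖ ≤ r := by
  classical
  induction t using Finset.strongInduction with
  | H t ih =>
    intro c K h a ha hc
    by_cases h1 : ∃ b ∈ t, b ≠ a
    · obtain ⟨b, hb, hba⟩ := h1
      refine ih (t.erase b) (erase_ssubset hb) (fun z => c z * (z - b)) (K * r + ‖b‖ * K) ?_ a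
        (mem_erase.2 ⟨hba.symm, ha⟩) (mul_ne_zero hc (sub_ne_zero.2 hba.symm))
      filter_upwards [h, (tendsto_add_atTop_nat 1).eventually h] with n h1 h2
      have e : ∑ z ∈ t.erase b, c z * (z - b) * z ^ n =
          ∑ z ∈ t, c z * z ^ (n + 1) - b * ∑ z ∈ t, c z * z ^ n := by
        rw [sum_erase _ (by simp), mul_sum, ← sum_sub_distrib]
        exact sum_congr rfl fun z _ => by ring
      rw [e]
      refine (norm_sub_le _ _).trans ?_
      rw [norm_mul]
      have := mul_le_mul_of_nonneg_left h1 (norm_nonneg b)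
      rw [pow_succ r] at h2
      linarith
    · push Not at h1
      rw [eq_singleton_iff_unique_mem.2 ⟨ha, h1⟩] at h
      refine norm_le_of_pow hr (c := K / ‖c a‖) (h.mono fun n hn => ?_)
      rw [sum_singleton, norm_mul, norm_pow] at hn
      rwa [div_mul_eq_mul_div, le_div_iff₀' (norm_pos_iff.2 hc)]

theorem norm_le_of_sums {ι : Type} [Fintype ι] {α : ι → ℂ} {r K : ℝ} (hr : 0 < r)
    (h : ∀ᶠ n in atTop, ‖∑ i, α i ^ n‖ ≤ K * r ^ n) (i : ι) : ‖α i‖ ≤ r := by
  classical
  refine norm_le_coef hr (univ.image α) (fun a => #{j | α j = a}) K (h.mono fun n hn => ?_) _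
    (mem_image_of_mem α (mem_univ i)) (Nat.cast_ne_zero.2 (card_pos.2 ⟨i, by simp⟩).ne')
  rwa [sum_comp (· ^ n) α, sum_congr rfl fun _ _ => nsmul_eq_mul _ _] at hn

end Pool.Agent.FW
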