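import Pool.Agent.Lib.MP_2c63aa_nt.FW.Tower
import Pool.Agent.Lib.MP_2c63aa_nt.FW.Grp

/-! The upper bound for the number of points in a class. -/

namespace Pool.Agent.FW

open Polynomial Finset Filter Pool.Agent.Lib.MP_639284_nt
open Pool.Agent.Shared.HasseDavenport (mon mem_mon)

variable (F : Type) [Field F] [Fintype F] (B : Type) [CommRing B] [Algebra F B]

/-- the power `q ^ n` as an algebra map -/
noncomputable def fr (n : ℕ) : B →ₐ[F] B := FiniteField.frobeniusAlgHom F B ^ n

/-- polynomials over `F` as power series over `B` -/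
noncomputable def ps : F[X] →+* PowerSeries B :=
  coeToPowerSeries.ringHom.comp (mapRingHom (algebraMap F B))

variable {F B}

theorem fr_apply (n : ℕ) (y : B) : fr F B n y = y ^ Nat.card F ^ n := by
  rw [fr, AlgHom.coe_pow, FiniteField.coe_frobeniusAlgHom, pow_iterate, Nat.card_eq_fintype_card]

omit [Fintype F] in
theorem coeff_ps (f : F[X]) (i : ℕ) : PowerSeries.coeff i (ps F B f) = algebraMap F B (f.coeff i) := by
  simp [ps]

theorem map_ps (n : ℕ) (f : F[X]) :
    PowerSeries.map (fr F B n : B →+* B) (ps F B f) = ps F B f := by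
  ext i
  simp [coeff_ps]

theorem pt_iff {m : ℕ} {x : B} {u : ℕ → B} : Pt (Nat.card F) m x u ↔ u 0 = 1 ∧
    PowerSeries.X ^ (m + 1) ∣ PowerSeries.map (fr F B 1 : B →+* B) (PowerSeries.mk u) -
      (1 - PowerSeries.C x * PowerSeries.X) * PowerSeries.mk u := by
  refine and_congr_right fun h0 => ?_
  rw [PowerSeries.X_pow_dvd_iff, Nat.forall_lt_succ_left, map_sub, PowerSeries.coeff_map]
  simp [h0, fr_apply, sub_mul, mul_assoc, PowerSeries.coeff_succ_X_mul, sub_eq_zero,
    -Nat.card_eq_fintype_card]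

/-- multiplication by a polynomial with constant coefficients -/
noncomputable def act (f : F[X]) (u : ℕ → B) (j : ℕ) : B :=
  PowerSeries.coeff j (ps F B f * PowerSeries.mk u)

omit [Fintype F] in
theorem mk_act (f : F[X]) (u : ℕ → B) :
    PowerSeries.mk (act f u) = ps F B f * PowerSeries.mk u := by
  ext j
  simp [act]

omit [Fintype F] in
theorem act_eq (f : F[X]) (u : ℕ → B) (j : ℕ) :
    act f u j = ∑ p ∈ antidiagonal j, f.coeff p.1 • u p.2 := by
  simp [act, PowerSeries.coeff_mul, coeff_ps, Algebra.smul_def]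

theorem Pt.act {m : ℕ} {x : B} {u : ℕ → B} (h : Pt (Nat.card F) m x u) {f : F[X]}
    (hf : f.coeff 0 = 1) : Pt (Nat.card F) m x (act f u) := by
  refine pt_iff.2 ⟨by simp [act_eq, hf, h.1], ?_⟩
  rw [mk_act, map_mul, map_ps, mul_left_comm, ← mul_sub]
  exact (pt_iff.1 h).2.mul_left _

variable {Ω : Type} [Field Ω] [Algebra F Ω]

theorem exists_pt [IsAlgClosed Ω] {q : ℕ} (hq : 1 < q) (x : Ω) : ∃ u : ℕ → Ω, ∀ m, Pt q m x u := by
  have : ∀ c : Ω, ∃ r, r ^ q = r - c := fun c => by
    have hd : (X - C c : Polynomial Ω).degree < (X ^ q : Polynomial Ω).degree := by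
      rw [degree_X_sub_C, degree_X_pow]
      exact_mod_cast hq
    obtain ⟨r, hr⟩ := IsAlgClosed.exists_root (X ^ q - (X - C c)) (by
      rw [degree_sub_eq_left_of_degree_lt hd, degree_X_pow]
      exact_mod_cast (by omega : q ≠ 0))
    exact ⟨r, by simpa [sub_eq_zero] using hr⟩
  choose r hr using this
  exact ⟨fun n => Nat.rec 1 (fun _ v => r (x * v)) n, fun m => ⟨rfl, fun i _ => hr _⟩⟩

theorem map_iter {x : B} {u : ℕ → B} (h : ∀ m, Pt (Nat.card F) m x u) (n : ℕ) :
    PowerSeries.map (fr F B n : B →+* B) (PowerSeries.mk u) =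
      (∏ i ∈ range n, (1 - PowerSeries.C (x ^ Nat.card F ^ i) * PowerSeries.X)) *
        PowerSeries.mk u := by
  have h1 : PowerSeries.map (fr F B 1 : B →+* B) (PowerSeries.mk u) =
      (1 - PowerSeries.C x * PowerSeries.X) * PowerSeries.mk u := by
    ext i
    rw [← sub_eq_zero, ← map_sub]
    exact PowerSeries.X_pow_dvd_iff.1 (pt_iff.1 (h i)).2 i (Nat.lt_succ_self i)
  induction n with
  | zero =>
    ext i
    simp [fr_apply]
  | succ n ih =>
    have e : PowerSeries.map (fr F B (n + 1) : B →+* B) (PowerSeries.mk u) =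
        PowerSeries.map (fr F B n : B →+* B)
          (PowerSeries.map (fr F B 1 : B →+* B) (PowerSeries.mk u)) := by
      ext i
      simp [fr_apply, ← pow_mul, pow_succ']
    rw [e, h1, map_mul, ih, prod_range_succ, map_sub, map_mul, PowerSeries.map_C, PowerSeries.map_X,
      map_one, RingHom.coe_coe, fr_apply]
    ring

theorem int_of {x : Ω} {s : ℕ} (hs : 0 < s) (hx : x ^ Nat.card F ^ s = x) :
    IsIntegral F x ∧ (minpoly F x).natDegree ∣ s := by
  have h0 : aeval x (X ^ Nat.card F ^ s - X : F[X]) = 0 := by simp [-Nat.card_eq_fintype_card, hx]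
  have hi : IsIntegral F x := IsAlgebraic.isIntegral
    ⟨_, FiniteField.X_pow_card_pow_sub_X_ne_zero F hs.ne' Finite.one_lt_card, h0⟩
  exact ⟨hi, (minpoly.irreducible hi).natDegree_dvd_of_dvd_X_pow_card_pow_sub_X (minpoly.dvd F x h0)⟩

theorem pow_deg {x : Ω} (hi : IsIntegral F x) : x ^ Nat.card F ^ (minpoly F x).natDegree = x := by
  have := minpoly.dvd_iff.1
    ((minpoly.irreducible hi).natDegree_dvd_iff_dvd_X_pow_card_pow_sub_X.1 dvd_rfl)
  simpa [sub_eq_zero, -Nat.card_eq_fintype_card] using this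

theorem map_minpoly {x : Ω} (hi : IsIntegral F x) : (minpoly F x).map (algebraMap F Ω) =
    ∏ i ∈ range (minpoly F x).natDegree, (X - C (x ^ Nat.card F ^ i)) := by
  have hinj : ∀ i j, i < j → j < (minpoly F x).natDegree → x ^ Nat.card F ^ i ≠ x ^ Nat.card F ^ j :=
    fun i j hij hj e => by
      obtain ⟨t, rfl⟩ := Nat.exists_eq_add_of_lt hij
      rw [add_assoc, pow_add, mul_comm, pow_mul, ← fr_apply i x, ← fr_apply i] at e
      have := Nat.le_of_dvd (by omega) (int_of (by omega) ((fr F Ω i).injective e).symm).2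
      omega
  refine eq_of_monic_of_dvd_of_natDegree_le (monic_prod_of_monic _ _ fun i _ => monic_X_sub_C _)
    ((minpoly.monic hi).map _) (prod_dvd_of_coprime (fun i hi j hj hij => ?_) fun i _ => ?_) ?_
  · refine isCoprime_X_sub_C_of_isUnit_sub (sub_ne_zero.2 ?_).isUnit
    rcases lt_or_gt_of_ne hij with h | h
    · exact hinj i j h (mem_range.1 hj)
    · exact (hinj j i h (mem_range.1 hi)).symm
  · rw [dvd_iff_isRoot, IsRoot, eval_map_algebraMap, ← fr_apply, aeval_algHom_apply, minpoly.aeval,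
      map_zero]
  · rw [natDegree_prod_of_monic _ _ fun i _ => monic_X_sub_C _, natDegree_map]
    simp only [natDegree_X_sub_C, sum_const, card_range, smul_eq_mul, mul_one, le_refl]

theorem ps_nm {x : Ω} {s : ℕ} (hs : 0 < s) (hx : x ^ Nat.card F ^ s = x) :
    ps F Ω (nm F s x).reverse =
      ∏ i ∈ range s, (1 - PowerSeries.C (x ^ Nat.card F ^ i) * PowerSeries.X) := by
  obtain ⟨hi, t, ht⟩ := int_of hs hx
  have h1 : (nm F s x).map (algebraMap F Ω) = ∏ i ∈ range s, (X - C (x ^ Nat.card F ^ i)) := by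
    rw [nm, ht, Nat.mul_div_cancel_left _ (minpoly.natDegree_pos hi), Polynomial.map_pow]
    clear ht hx hs
    have h2 : ∀ t, x ^ Nat.card F ^ ((minpoly F x).natDegree * t) = x := fun t => by
      induction t with
      | zero => simp
      | succ t ih => rw [mul_add_one, pow_add, pow_mul, ih, pow_deg hi]
    induction t with
    | zero => simp
    | succ t ih =>
      rw [mul_add_one, prod_range_add, pow_succ, ih, map_minpoly hi]
      simp only [pow_add, pow_mul x, h2]
  have h2 : ∀ n, (∏ i ∈ range n, (X - C (x ^ Nat.card F ^ i))).reverse =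
      ∏ i ∈ range n, (1 - C (x ^ Nat.card F ^ i) * X) := fun n => by
    induction n with
    | zero => simpa using reverse_C (1 : Ω)
    | succ n ih =>
      rw [prod_range_succ, prod_range_succ, reverse_mul_of_domain, ih, sub_eq_add_neg X, ← C_neg,
        reverse_add_C]
      simp [reverse, sub_eq_add_neg]
  have h3 : (nm F s x).reverse.map (algebraMap F Ω) = ((nm F s x).map (algebraMap F Ω)).reverse := by
    rw [reverse, reverse, reflect_map, natDegree_map]
  rw [ps, RingHom.comp_apply, coe_mapRingHom, h3, h1, h2, map_prod]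
  simp

theorem finite_fix {s : ℕ} (hs : 0 < s) : {x : Ω | x ^ Nat.card F ^ s = x}.Finite := by
  refine ((X ^ Nat.card F ^ s - X : F[X]).rootSet_finite Ω).subset fun x hx => ?_
  rw [mem_rootSet_of_ne (FiniteField.X_pow_card_pow_sub_X_ne_zero F hs.ne' Finite.one_lt_card)]
  simpa [sub_eq_zero, -Nat.card_eq_fintype_card] using hx

variable (Ω) in
/-- the number of points in a class -/
noncomputable def cnt {G : Type} (cl : F[X] → G) (s : ℕ) (γ : G) : ℕ :=
  {x : Ω | x ^ Nat.card F ^ s = x ∧ cl (nm F s x) = γ}.ncard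

theorem cnt_le [IsAlgClosed Ω] {G : Type} [AddCommGroup G] [Fintype G] {m : ℕ} {cl : F[X] → G}
    (h : Cls m cl) : ∃ K : ℕ, ∀ᶠ s in atTop, ∀ γ,
      cnt Ω cl (s * 2) γ * Fintype.card G ≤ Nat.card F ^ (s * 2) + K * Nat.card F ^ s := by
  have hq : 1 < Nat.card F := Finite.one_lt_card
  obtain ⟨O, _, _, S, x₀, u₀, T⟩ := exists_tw F hq m
  obtain ⟨p, _, f, hp, hf⟩ := FiniteField.card' F
  have := Fact.mk hp
  have := charP_of_injective_algebraMap (algebraMap F Ω).injective p
  refine ⟨2 * #S.G + 1, ?_⟩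
  filter_upwards [(tendsto_pow_atTop_atTop_of_one_lt hq).eventually_gt_atTop
    (#S.G ^ 2 + 3 * #S.G + 1), eventually_gt_atTop 0] with s hs hs0 γ
  choose g hg hg' using h.surj
  have g0 : ∀ β, (g β).reverse.coeff 0 = 1 := fun β => by
    rw [coeff_zero_reverse, (mem_mon.1 (hg β)).1]
  obtain ⟨σ, σ1, σ2⟩ := T.lift O x₀ _ (T.pt.act (g0 γ))
  have mono : ∀ j ≤ m, ∀ i ≤ j, S.dg (u₀ i) ≤ S.dg (u₀ j) := fun j hj i hi => by
    induction j, hi using Nat.le_induction with
    | base => rfl
    | succ j _ ih => exact (ih (by omega)).trans (T.mono j hj)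
  have hσ := T.deg_le (σ := σ) (by rw [σ1]) fun i hi => by
    rw [σ2 i hi, act_eq, ← S.mem_lt_succ]
    exact Submodule.sum_mem _ fun y hy => Submodule.smul_mem _ _
      (S.mem_lt_succ.2 (mono i hi _ (by have := mem_antidiagonal.1 hy; omega : y.2 ≤ i)))
  have e : Nat.card F ^ s = p ^ (f * s) := by rw [Nat.card_eq_fintype_card, hf, pow_mul]
  obtain ⟨r1, r2⟩ := rh F O Ω S p (f * s) σ.toLinearMap hσ (e ▸ hs)
  rw [← e, ← pow_mul] at r1 r2
  choose u hu using exists_pt (Ω := Ω) hq
  choose τ τ1 τ2 using fun (x : Ω) (β : G) => T.lift Ω x _ ((hu x m).act (g0 β))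
  refine le_trans ?_ r2
  rw [cnt, ← Nat.card_eq_fintype_card, ← Set.ncard_univ G, ← Set.ncard_prod]
  refine Set.ncard_le_ncard_of_injOn (fun y => τ y.1 y.2) ?_ ?_ r1
  · rintro ⟨x, β⟩ ⟨⟨hx, hc⟩, -⟩ a
    rw [← fr_apply]
    refine DFunLike.congr_fun (T.ext (τ := (fr F Ω (s * 2)).comp (τ x β)) (τ' := (τ x β).comp σ)
      (by simpa [σ1, τ1, fr_apply, -Nat.card_eq_fintype_card] using hx) fun i hi => ?_) a
    have h1 : τ x β (act (g γ).reverse u₀ i) = act (g γ).reverse (act (g β).reverse (u x)) i := by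
      rw [act_eq, act_eq, map_sum]
      exact sum_congr rfl fun y hy => by rw [map_smul, τ2 _ _ _ ((by have := mem_antidiagonal.1 hy; omega : y.2 ≤ i).trans hi)]
    have h2 := congrArg (PowerSeries.coeff i)
      (map_iter (fun m => (hu x m).act (g0 β)) (s * 2))
    rw [← ps_nm (by omega) hx, PowerSeries.coeff_map, PowerSeries.coeff_mk, RingHom.coe_coe] at h2
    rw [AlgHom.comp_apply, AlgHom.comp_apply, σ2 i hi, τ2 _ _ _ hi, h1, h2, act, ← sub_eq_zero,
      ← map_sub, ← sub_mul, ← map_sub]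
    have h3 := map_dvd (ps F Ω) ((h.eq _ _ ((minpoly.monic (int_of (by omega) hx).1).pow _)
      (mem_mon.1 (hg γ)).1).1 (hc.trans (hg' γ).symm))
    rw [map_pow, show ps F Ω X = PowerSeries.X by simp [ps]] at h3
    exact PowerSeries.X_pow_dvd_iff.1 (h3.mul_right _) i (by omega)
  · rintro ⟨x, β⟩ - ⟨x', β'⟩ - e
    simp only at e
    obtain rfl : x = x' := by rw [← τ1 x β, e, τ1]
    have h1 : PowerSeries.X ^ (m + 1) ∣
        ps F Ω ((g β).reverse - (g β').reverse) * PowerSeries.mk (u x) := by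
      refine PowerSeries.X_pow_dvd_iff.2 fun i hi => ?_
      rw [map_sub, sub_mul, map_sub, ← act, ← act, ← τ2 _ _ _ (by omega), ← τ2 _ _ _ (by omega), e,
        sub_self]
    rw [IsUnit.dvd_mul_right (PowerSeries.isUnit_iff_constantCoeff.2 (by simp [(hu x 0).1])),
      PowerSeries.X_pow_dvd_iff] at h1
    rw [← hg' β, ← hg' β', (h.eq _ _ (mem_mon.1 (hg β)).1 (mem_mon.1 (hg β')).1).2
      (X_pow_dvd_iff.2 fun i hi => by simpa [coeff_ps, -map_sub] using h1 i hi)]

end Pool.Agent.FW
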