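import Pool.Agent.Lib.MP_2c63aa_nt.FW.Cnt

/-! Irreducible polynomials over a finite field in short intervals. -/

namespace Pool.Agent.FW

open Polynomial Finset Filter Pool.Agent.Lib.MP_639284_nt
open Pool.Agent.Shared.HasseDavenport (mon mem_mon)

variable {F : Type} [Field F] [Fintype F] {Ω : Type} [Field Ω] [Algebra F Ω] [IsAlgClosed Ω]
  {G : Type} [AddCommGroup G] [Fintype G] {m : ℕ} {cl : F[X] → G}

variable (F Ω) in
theorem card_fq {s : ℕ} (hs : 0 < s) : #(FQ Ω (Nat.card F ^ s)) = Nat.card F ^ s := by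
  obtain ⟨p, _, f, hp, hf⟩ := FiniteField.card' F
  have := charP_of_injective_algebraMap (algebraMap F Ω).injective p
  refine card_FQ Ω (Nat.one_lt_pow hs.ne' Finite.one_lt_card) p ?_
  rw [Nat.card_eq_fintype_card, hf, ← pow_mul]
  exact dvd_pow_self p (Nat.mul_pos f.2 hs).ne'

omit [IsAlgClosed Ω] [AddCommGroup G] in
theorem sum_cnt (χ : G → ℂ) {s : ℕ} (hs : 0 < s) :
    ∑ γ, χ γ * cnt Ω cl s γ = ∑ x ∈ FQ Ω (Nat.card F ^ s), χ (cl (nm F s x)) := by
  classical
  rw [← sum_fiberwise (s := FQ Ω (Nat.card F ^ s)) (g := fun x => cl (nm F s x))]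
  refine sum_congr rfl fun γ _ => ?_
  rw [sum_congr rfl fun x hx => congrArg χ (mem_filter.1 hx).2, sum_const, nsmul_eq_mul, mul_comm,
    cnt, ← Set.ncard_coe_finset]
  congr 3
  ext x
  simp [mem_FQ (Nat.one_lt_pow hs.ne' (Finite.one_lt_card (α := F))), -Nat.card_eq_fintype_card]

omit [AddCommGroup G] in
theorem sum_cnt_one {s : ℕ} (hs : 0 < s) : ∑ γ, (cnt Ω cl s γ : ℂ) = Nat.card F ^ s := by
  have := sum_cnt (Ω := Ω) (cl := cl) (fun _ => 1) hs
  simpa [card_fq F Ω hs, -Nat.card_eq_fintype_card] using this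

theorem even_bound (h : Cls m cl) {χ : AddChar G ℂ} (hχ : χ ≠ 0) : ∃ K : ℝ, ∀ᶠ s in atTop,
    ‖∑ γ, χ γ * cnt Ω cl (s * 2) γ‖ ≤ K * (Nat.card F : ℝ) ^ s := by
  obtain ⟨K, hK⟩ := cnt_le (Ω := Ω) h
  refine ⟨K, ?_⟩
  filter_upwards [hK, eventually_gt_atTop 0] with s hs hs0
  set B : ℝ := K * (Nat.card F : ℝ) ^ s with hB
  set c : G → ℝ := fun γ => cnt Ω cl (s * 2) γ * Fintype.card G - (Nat.card F : ℝ) ^ (s * 2) with hc
  have h4 : ∀ γ, c γ ≤ B := fun γ => by
    rw [hc, sub_le_iff_le_add', hB]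
    exact_mod_cast hs γ
  have h5 : ∑ γ, c γ = 0 := by
    have : ∑ γ, (cnt Ω cl (s * 2) γ : ℝ) = Nat.card F ^ (s * 2) := by
      exact_mod_cast sum_cnt_one (Ω := Ω) (cl := cl) (show 0 < s * 2 by omega)
    rw [hc, sum_sub_distrib, ← sum_mul, this, sum_const, card_univ, nsmul_eq_mul, mul_comm, sub_self]
  have h6 : (∑ γ, χ γ * cnt Ω cl (s * 2) γ) * Fintype.card G = ∑ γ, χ γ * (c γ - B : ℝ) := by
    simp only [hc, Complex.ofReal_sub, mul_sub, sum_sub_distrib, ← sum_mul,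
      AddChar.sum_eq_zero_iff_ne_zero.2 hχ]
    simp [sum_mul, mul_assoc]
  have h7 : ‖(∑ γ, χ γ * cnt Ω cl (s * 2) γ) * Fintype.card G‖ ≤ B * Fintype.card G := by
    rw [h6]
    refine (norm_sum_le _ _).trans (le_of_eq ?_)
    have : ∀ γ, ‖χ γ * (c γ - B : ℝ)‖ = B - c γ := fun γ => by
      rw [norm_mul, χ.norm_apply, one_mul, Complex.norm_real,
        Real.norm_of_nonpos (sub_nonpos.2 (h4 γ)), neg_sub]
    simp only [this]
    rw [sum_sub_distrib, h5, sum_const, card_univ, nsmul_eq_mul, sub_zero, mul_comm]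
  rw [norm_mul, Complex.norm_natCast] at h7
  exact le_of_mul_le_mul_right h7 (Nat.cast_pos.2 Fintype.card_pos)

/-- the Riemann hypothesis for the characters of the group of leading coefficients -/
theorem weil (h : Cls m cl) {χ : AddChar G ℂ} (hχ : χ ≠ 0) {s : ℕ} (hs : 0 < s) :
    ‖∑ γ, χ γ * cnt Ω cl s γ‖ ≤ (m - 1 : ℕ) * √(Nat.card F : ℝ) ^ s := by
  obtain ⟨d, α, hd, hα⟩ := lpoly Ω (fun P => χ (cl P)) m (by simp [h.one])
    (fun P Q hP hQ => by rw [h.mul P Q hP hQ, χ.map_add_eq_mul]) fun n hn => h.sum_mon hχ hn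
  have e : ∀ s, 0 < s → ∑ γ, χ γ * cnt Ω cl s γ = -∑ i, α i ^ s := fun s hs => by
    have h1 := Nat.one_lt_pow hs.ne' (Finite.one_lt_card (α := F))
    rw [← hα s hs, sum_cnt χ hs, ← finsum_mem_coe_finset]
    refine finsum_mem_congr (Set.ext fun x => mem_FQ h1) fun x hx => ?_
    rw [nm, h.pow (minpoly.monic (int_of hs hx).1), χ.map_nsmul_eq_pow]
  obtain ⟨K, hK⟩ := even_bound (Ω := Ω) h hχ
  have hq : (0 : ℝ) < Nat.card F := Nat.cast_pos.2 Nat.card_pos
  have h1 := norm_le_of_sums (α := fun i => α i ^ 2) (K := K) hq (by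
    filter_upwards [hK, eventually_gt_atTop 0] with n hn hn0
    rw [e _ (by omega), norm_neg] at hn
    simpa only [← pow_mul, mul_comm 2] using hn)
  rw [e s hs, norm_neg]
  refine (norm_sum_le _ _).trans ((sum_le_card_nsmul _ _ (√(Nat.card F : ℝ) ^ s) fun i _ => ?_).trans ?_)
  · rw [norm_pow]
    exact pow_le_pow_left₀ (norm_nonneg _) (Real.le_sqrt_of_sq_le (by simpa using h1 i)) _
  · rw [card_univ, Fintype.card_fin, nsmul_eq_mul]
    exact mul_le_mul_of_nonneg_right (Nat.cast_le.2 (by omega)) (by positivity)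

theorem cnt_ge (h : Cls m cl) {s : ℕ} (hs : 0 < s) (γ : G) : (Nat.card F : ℝ) ^ s ≤
    Fintype.card G * (cnt Ω cl s γ + (m - 1 : ℕ) * √(Nat.card F : ℝ) ^ s) := by
  classical
  have e : (Fintype.card G : ℂ) * cnt Ω cl s γ =
      ∑ χ : AddChar G ℂ, χ (-γ) * ∑ β, χ β * cnt Ω cl s β := by
    simp only [mul_sum, ← mul_assoc, ← AddChar.map_add_eq_mul]
    rw [sum_comm]
    simp only [← sum_mul, AddChar.sum_apply_eq_ite, neg_add_eq_zero]
    simp
  rw [← add_sum_erase _ _ (mem_univ 0)] at e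
  simp only [AddChar.zero_apply, one_mul, sum_cnt_one hs] at e
  have h1 := (congrArg norm (sub_eq_iff_eq_add.2 e)).symm.trans_le (norm_sub_le _ _)
  rw [norm_pow, norm_mul, Complex.norm_natCast, Complex.norm_natCast, Complex.norm_natCast] at h1
  rw [mul_add]
  refine h1.trans (add_le_add le_rfl ((norm_sum_le _ _).trans ((sum_le_card_nsmul _ _
    ((m - 1 : ℕ) * √(Nat.card F : ℝ) ^ s) fun χ hχ => ?_).trans ?_)))
  · rw [norm_mul, χ.norm_apply, one_mul]
    exact weil h (ne_of_mem_erase hχ) hs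
  · rw [nsmul_eq_mul]
    refine mul_le_mul_of_nonneg_right (Nat.cast_le.2 (card_erase_le.trans ?_)) (by positivity)
    rw [card_univ, AddChar.card_eq]

omit [AddCommGroup G] [Fintype G] in
theorem cnt_small {n : ℕ} (hn : 0 < n) {γ : G}
    (h : ∀ f ∈ mon F n, Irreducible f → cl f ≠ γ) :
    (cnt Ω cl n γ : ℝ) ≤ 2 * √(Nat.card F : ℝ) ^ n := by
  classical
  have hq : 1 < Nat.card F := Finite.one_lt_card
  have h1 : cnt Ω cl n γ ≤ #((Icc 1 (n / 2)).biUnion fun d => FQ Ω (Nat.card F ^ d)) := by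
    rw [cnt, ← Set.ncard_coe_finset]
    refine Set.ncard_le_ncard (fun x ⟨hx, hc⟩ => ?_) (finite_toSet _)
    obtain ⟨hi, t, ht⟩ := int_of hn hx
    have hd := minpoly.natDegree_pos hi
    have ht1 : t ≠ 1 := by
      rintro rfl
      rw [mul_one] at ht
      rw [nm, ← ht, Nat.div_self hn, pow_one] at hc
      exact h _ (mem_mon.2 ⟨minpoly.monic hi, ht.symm⟩) (minpoly.irreducible hi) hc
    have ht0 : t ≠ 0 := by
      rintro rfl
      omega
    have : (minpoly F x).natDegree * 2 ≤ n := ht ▸ Nat.mul_le_mul_left _ (by omega)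
    exact mem_coe.2 (mem_biUnion.2 ⟨_, mem_Icc.2 ⟨hd, by omega⟩,
      (mem_FQ (Nat.one_lt_pow hd.ne' hq)).2 (pow_deg hi)⟩)
  have h2 : (1 : ℝ) ≤ √(Nat.card F : ℝ) := Real.one_le_sqrt.2 (by exact_mod_cast hq.le)
  have h3 : ∀ k, ∑ d ∈ Icc 1 k, #(FQ Ω (Nat.card F ^ d)) ≤ 2 * Nat.card F ^ k := fun k => by
    induction k with
    | zero => simp
    | succ k ih =>
      rw [sum_Icc_succ_top (by omega), card_fq F Ω k.succ_pos, pow_succ]
      nlinarith [Nat.zero_le (Nat.card F ^ k)]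
  refine (Nat.cast_le.2 ((h1.trans card_biUnion_le).trans (h3 _))).trans ?_
  rw [Nat.cast_mul, Nat.cast_pow, ← Real.sq_sqrt (Nat.cast_nonneg (Nat.card F)), ← pow_mul,
    Real.sqrt_sq (by positivity)]
  exact mul_le_mul_of_nonneg_left (pow_le_pow_right₀ h2 (by omega)) (by positivity)

theorem core {F : Type} [Field F] [Finite F] {g : F[X]} {n m : ℕ} (hg : g.Monic)
    (hn : g.natDegree = n) (hb : (m - 1 + 2) ^ 2 * Nat.card F ^ (2 * m) < Nat.card F ^ n) :
    ∃ f : F[X], f.Monic ∧ Irreducible f ∧ f.natDegree = n ∧ (f - g).degree < (n - m : ℕ) := by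
  have := Fintype.ofFinite F
  obtain ⟨G, _, _, cl, hc⟩ := exists_grp F m
  have hq : (0 : ℝ) < Nat.card F := Nat.cast_pos.2 Nat.card_pos
  have h0 : 0 < n := Nat.pos_of_ne_zero fun e => by
    have : 0 < (m - 1 + 2) ^ 2 * Nat.card F ^ (2 * m) := by
      have := Nat.card_pos (α := F)
      positivity
    rw [e, pow_zero] at hb
    omega
  by_contra hcon
  have h1 := cnt_small (Ω := AlgebraicClosure F) (cl := cl) (γ := cl g) h0 fun f hf hi e =>
    hcon ⟨f, (mem_mon.1 hf).1, hi, (mem_mon.1 hf).2, hc.degree_lt hf (mem_mon.2 ⟨hg, hn⟩) e⟩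
  have h2 := cnt_ge (Ω := AlgebraicClosure F) hc h0 (cl g)
  have h3 : (Fintype.card G : ℝ) ≤ (Nat.card F : ℝ) ^ m := by exact_mod_cast hc.card_le
  have h5 : (0 : ℝ) < √(Nat.card F : ℝ) ^ n := by positivity
  have h6 : √(Nat.card F : ℝ) ^ n * √(Nat.card F : ℝ) ^ n ≤
      (Nat.card F : ℝ) ^ m * ((m - 1 : ℕ) + 2) * √(Nat.card F : ℝ) ^ n := by
    rw [← mul_pow, Real.mul_self_sqrt hq.le, mul_assoc]
    refine h2.trans (mul_le_mul h3 ?_ (by positivity) (by positivity))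
    linarith
  have h7 := pow_le_pow_left₀ h5.le (le_of_mul_le_mul_right h6 h5) 2
  rw [mul_pow, pow_right_comm, Real.sq_sqrt hq.le, ← pow_mul, mul_comm m, mul_comm] at h7
  exact hb.not_ge (by exact_mod_cast h7)

/-- an irreducible polynomial with prescribed first `m + 1` coefficients -/
theorem short' {F : Type} [Field F] [Finite F] {g : F[X]} {n m : ℕ} (hg : g.Monic)
    (hn : g.natDegree = n) (hm : 0 < m)
    (hb : (m + 1) ^ 2 * Nat.card F ^ (2 * m) < Nat.card F ^ n) :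
    ∃ f : F[X], f.Monic ∧ Irreducible f ∧ f.natDegree = n ∧ (f - g).degree < (n - m : ℕ) :=
  core hg hn (by rwa [show m - 1 + 2 = m + 1 by omega])

/-- an irreducible polynomial in every interval a little longer than the square root -/
theorem short {F : Type} [Field F] [Finite F] {g : F[X]} {n h : ℕ} (hg : g.Monic)
    (hn : g.natDegree = n) (h0 : 0 < n) (hh : h ≤ n)
    (hb : (2 * n) ^ 2 * Nat.card F ^ n < Nat.card F ^ (2 * h)) :
    ∃ f : F[X], f.Monic ∧ Irreducible f ∧ f.natDegree = n ∧ (f - g).degree < h := by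
  have hq := Nat.card_pos (α := F)
  have := core (m := n - h) hg hn (by
    refine Nat.lt_of_mul_lt_mul_right (a := Nat.card F ^ (2 * h)) ?_
    rw [mul_assoc, ← pow_add, ← mul_add, Nat.sub_add_cancel hh, two_mul n, pow_add, ← mul_assoc,
      mul_comm (Nat.card F ^ n)]
    refine Nat.mul_lt_mul_of_pos_right (lt_of_le_of_lt ?_ hb) (by positivity)
    exact Nat.mul_le_mul_right _ (Nat.pow_le_pow_left (by omega) 2))
  rwa [Nat.sub_sub_self hh] at this

/-- the form with base two and without monicity -/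
theorem short_two {F : Type} [Field F] [Finite F] (m : ℕ) (f : F[X]) (hm : 0 < m)
    (hb : (m + 1) ^ 2 * 2 ^ (2 * m) < 2 ^ f.natDegree) :
    ∃ g : F[X], Irreducible g ∧ (g - f).degree < (f.natDegree - m : ℕ) := by
  have hq : 2 ≤ Nat.card F := Finite.one_lt_card
  have h1 : 2 * m ≤ f.natDegree := by
    by_contra h
    have := Nat.pow_le_pow_right (n := 2) (by omega) (not_le.1 h).le
    nlinarith [Nat.zero_le (2 ^ (2 * m)), Nat.zero_le (m ^ 2 * 2 ^ (2 * m)),
      Nat.zero_le (m * 2 ^ (2 * m))]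
  have hf : f ≠ 0 := by
    rintro rfl
    simp only [natDegree_zero] at h1
    omega
  have hl := leadingCoeff_ne_zero.2 hf
  obtain ⟨t, ht⟩ := Nat.exists_eq_add_of_le h1
  obtain ⟨g, -, g2, -, g4⟩ := short' (monic_mul_leadingCoeff_inv hf)
    (natDegree_mul_leadingCoeff_inv f hf) hm (by
      rw [ht, pow_add, mul_comm (_ ^ (2 * m))] at hb ⊢
      exact Nat.mul_lt_mul_of_pos_right ((Nat.lt_of_mul_lt_mul_right hb).trans_le
        (Nat.pow_le_pow_left hq _)) (by positivity))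
  refine ⟨g * C f.leadingCoeff, (irreducible_mul_isUnit (isUnit_C.2 hl.isUnit)).2 g2, ?_⟩
  rwa [← degree_mul_C hl, sub_mul, mul_assoc, ← C_mul, inv_mul_cancel₀ hl, C_1, mul_one] at g4

end Pool.Agent.FW
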