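import Pool.Agent.Lib.MP_639284_nt.Deg

/-! The pole order filtration on an Artin-Schreier extension. -/

namespace Pool.Agent.FW

open Polynomial Finset Module Pool.Agent.Lib.MP_639284_nt

variable {k O O' : Type} [Field k] [CommRing O] [Algebra k O] [CommRing O'] [Algebra O O']
  [Algebra k O'] [IsScalarTower k O O'] (S : DegStr k O) {q : ℕ} (δ : ℕ) (B : Basis (Fin q) O O')

/-- the linear map which defines the degree upstairs -/
noncomputable def phi : O' →ₗ[k] k[X] :=
  ∑ j : Fin q, LinearMap.mulLeft k (X ^ ((j : ℕ) * δ)) ∘ₗ (expand k q).toLinearMap ∘ₗ S.φ ∘ₗ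
    (B.coord j).restrictScalars k

theorem phi_apply (a : O') :
    phi S δ B a = ∑ j : Fin q, X ^ ((j : ℕ) * δ) * expand k q (S.φ (B.repr a j)) := by
  simp [phi, LinearMap.sum_apply]

theorem phi_term (c : O) (j : Fin q) :
    phi S δ B (c • B j) = X ^ ((j : ℕ) * δ) * expand k q (S.φ c) := by
  rw [phi_apply, sum_eq_single j]
  · simp
  · intro i _ hi
    simp [hi.symm]
  · simp

theorem deg_term (hq : 0 < q) {c : O} (hc : c ≠ 0) (j : Fin q) :
    (phi S δ B (c • B j)).degree = (q * S.dg c + j * δ : ℕ) := by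
  rw [phi_term, degree_mul, degree_X_pow,
    degree_eq_natDegree ((expand_ne_zero hq).2 (S.φ_ne hc)), natDegree_expand, ← Nat.cast_add,
    DegStr.dg]
  congr 1
  ring

theorem phi_sum (a : O') : phi S δ B a = ∑ j, phi S δ B (B.repr a j • B j) := by
  rw [← map_sum, B.sum_repr]

theorem term_ne (hq : 0 < q) (hδ : δ.Coprime q) {c c' : O} {i j : Fin q} (hij : i ≠ j) (hc : c ≠ 0) :
    (phi S δ B (c • B i)).degree ≠ (phi S δ B (c' • B j)).degree := by
  intro h
  rcases eq_or_ne c' 0 with rfl | hc'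
  · rw [deg_term S δ B hq hc, zero_smul, map_zero, degree_zero] at h
    exact WithBot.coe_ne_bot h
  rw [deg_term S δ B hq hc, deg_term S δ B hq hc', Nat.cast_inj] at h
  have h1 : (i : ℕ) * δ ≡ j * δ [MOD q] := by
    have := congrArg (· % q) h
    simp only [Nat.mul_add_mod] at this
    exact this
  exact hij (Fin.ext (Nat.ModEq.eq_of_lt_of_lt (h1.cancel_right_of_coprime hδ.symm) i.2 j.2))

theorem deg_sum (hq : 0 < q) (hδ : δ.Coprime q) (c : Fin q → O) (s : Finset (Fin q)) :
    (∑ j ∈ s, phi S δ B (c j • B j)).degree = s.sup fun j => (phi S δ B (c j • B j)).degree :=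
  degree_sum_eq_of_disjoint _ _ fun i hi j _ hij =>
    term_ne S δ B hq hδ hij fun h => hi.2 (by simp [h])

theorem term_le (hq : 0 < q) (hδ : δ.Coprime q) (a : O') (j : Fin q) :
    (phi S δ B (B.repr a j • B j)).degree ≤ (phi S δ B a).degree := by
  rw [phi_sum S δ B a, deg_sum S δ B hq hδ]
  exact le_sup (f := fun j => (phi S δ B (B.repr a j • B j)).degree) (mem_univ j)

theorem exists_lead (hq : 0 < q) (hδ : δ.Coprime q) {a : O'} (ha : a ≠ 0) :
    ∃ (c : O) (j : Fin q), c ≠ 0 ∧ (phi S δ B (c • B j)).degree = (phi S δ B a).degree ∧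
      (phi S δ B (a - c • B j)).degree < (phi S δ B a).degree := by
  obtain ⟨i, hi⟩ : ∃ i, B.repr a i ≠ 0 := by
    by_contra h
    push Not at h
    exact ha (B.repr.map_eq_zero_iff.1 (Finsupp.ext h))
  obtain ⟨j, -, hj⟩ := exists_mem_eq_sup univ ⟨i, mem_univ i⟩
    fun j => (phi S δ B (B.repr a j • B j)).degree
  rw [← deg_sum S δ B hq hδ, ← phi_sum] at hj
  have h0 : ⊥ < (phi S δ B a).degree := by
    refine lt_of_lt_of_le ?_ (term_le S δ B hq hδ a i)
    rw [deg_term S δ B hq hi]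
    exact WithBot.bot_lt_coe _
  have hc : B.repr a j ≠ 0 := fun h => by simp [hj, h] at h0
  refine ⟨_, j, hc, hj.symm, ?_⟩
  rw [map_sub, phi_sum S δ B a, ← add_sum_erase _ _ (mem_univ j), add_sub_cancel_left,
    deg_sum S δ B hq hδ, add_sum_erase _ (fun j => phi S δ B (B.repr a j • B j)) (mem_univ j),
    ← phi_sum, Finset.sup_lt_iff h0]
  intro l hl
  refine (term_le S δ B hq hδ a l).lt_of_ne ?_
  rw [hj]
  exact (term_ne S δ B hq hδ (ne_of_mem_erase hl).symm hc).symm

variable {δ B} {z : O'} {b : O} (hq : 1 < q) (hδ : δ.Coprime q) (hB : ∀ j, B j = z ^ (j : ℕ))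
  (hz : z ^ q = z + algebraMap O O' b) (hb : (S.φ b).degree = δ)
include hq hδ hB hz hb

theorem deg_mon (n : ℕ) {c : O} (hc : c ≠ 0) :
    (phi S δ B (c • z ^ n)).degree = (q * S.dg c + n * δ : ℕ) := by
  have := S.isDomain
  induction n using Nat.strong_induction_on generalizing c with
  | _ n ih =>
    rcases lt_or_ge n q with h | h
    · rw [← deg_term S δ B (by omega) hc ⟨n, h⟩, hB]
    obtain ⟨r, rfl⟩ := Nat.exists_eq_add_of_le h
    have hb0 := S.ne_of_deg hb
    have hδ0 : 0 < δ := Nat.pos_of_ne_zero fun h => by simp [h] at hδ; omega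
    have e : c • z ^ (q + r) = c • z ^ (r + 1) + (c * b) • z ^ r := by
      rw [pow_add, hz, mul_smul, Algebra.smul_def b, ← smul_add]
      congr 1
      ring
    have h2 := ih r (by omega) (mul_ne_zero hc hb0)
    rw [S.dg_mul hc hb0, S.dg_of_deg hb] at h2
    rw [e, map_add, degree_add_eq_right_of_degree_lt, h2]
    · congr 1
      ring
    · rw [ih (r + 1) (by omega) hc, h2, Nat.cast_lt]
      nlinarith

theorem deg_mul_term (c c' : O) (i j : Fin q) : (phi S δ B (c • B i * c' • B j)).degree =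
    (phi S δ B (c • B i)).degree + (phi S δ B (c' • B j)).degree := by
  have := S.isDomain
  rcases eq_or_ne c 0 with rfl | hc
  · simp
  rcases eq_or_ne c' 0 with rfl | hc'
  · simp
  rw [deg_term S δ B (by omega) hc, deg_term S δ B (by omega) hc', hB, hB, smul_mul_smul_comm,
    ← pow_add, deg_mon S hq hδ hB hz hb _ (mul_ne_zero hc hc'), S.dg_mul hc hc', ← Nat.cast_add]
  congr 1
  ring

theorem deg_mul_le (a a' : O') :
    (phi S δ B (a * a')).degree ≤ (phi S δ B a).degree + (phi S δ B a').degree := by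
  conv_lhs => rw [← B.sum_repr a, ← B.sum_repr a', sum_mul_sum]
  simp only [map_sum]
  refine (degree_sum_le _ _).trans (Finset.sup_le fun i _ =>
    (degree_sum_le _ _).trans (Finset.sup_le fun j _ => ?_))
  rw [deg_mul_term S hq hδ hB hz hb]
  exact add_le_add (term_le S δ B (by omega) hδ a i) (term_le S δ B (by omega) hδ a' j)

theorem deg_mul (a a' : O') :
    (phi S δ B (a * a')).degree = (phi S δ B a).degree + (phi S δ B a').degree := by
  rcases eq_or_ne a 0 with rfl | ha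
  · simp
  rcases eq_or_ne a' 0 with rfl | ha'
  · simp
  obtain ⟨c, i, hc, h1, h2⟩ := exists_lead S δ B (by omega) hδ ha
  obtain ⟨c', j, hc', h1', h2'⟩ := exists_lead S δ B (by omega) hδ ha'
  have n1 : (phi S δ B a).degree ≠ ⊥ := by
    rw [← h1, deg_term S δ B (by omega) hc]
    exact WithBot.coe_ne_bot
  have n2 : (phi S δ B a').degree ≠ ⊥ := by
    rw [← h1', deg_term S δ B (by omega) hc']
    exact WithBot.coe_ne_bot
  have e : a * a' = c • B i * c' • B j + (c • B i * (a' - c' • B j) + (a - c • B i) * a') := by ring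
  have h3 := deg_mul_term S hq hδ hB hz hb c c' i j
  rw [h1, h1'] at h3
  rw [e, map_add, degree_add_eq_left_of_degree_lt, h3]
  rw [h3, map_add]
  refine (degree_add_le _ _).trans_lt (max_lt ?_ ?_)
  · refine (deg_mul_le S hq hδ hB hz hb _ _).trans_lt ?_
    rw [h1]
    exact WithBot.add_lt_add_left n1 h2'
  · exact (deg_mul_le S hq hδ hB hz hb _ _).trans_lt (WithBot.add_lt_add_right n2 h2)

theorem finite_gap : {n : ℕ | ¬ ∃ a, (phi S δ B a).degree = n}.Finite := by
  refine (Set.finite_lt_nat (q * (S.G.sup id + 1) + q * δ)).subset fun n hn => ?_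
  by_contra h
  refine hn ?_
  have : NeZero q := ⟨by omega⟩
  obtain ⟨j, hj, hj'⟩ : ∃ j < q, j * δ ≡ n [MOD q] := by
    refine ⟨((n : ZMod q) * (δ : ZMod q)⁻¹).val, ZMod.val_lt _, ?_⟩
    rw [← ZMod.natCast_eq_natCast_iff]
    push_cast
    rw [ZMod.natCast_zmod_val, mul_assoc, mul_comm _ (δ : ZMod q), ZMod.coe_mul_inv_eq_one δ hδ,
      mul_one]
  have h1 : j * δ ≤ q * δ := Nat.mul_le_mul_right _ hj.le
  simp only [Set.mem_ofPred_eq, not_lt] at h
  obtain ⟨t, ht⟩ := (Nat.modEq_iff_dvd' (by omega)).1 hj'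
  have h4 : q * (S.G.sup id + 1) ≤ q * t := by omega
  have h2 : S.G.sup id + 1 ≤ t := Nat.le_of_mul_le_mul_left h4 (by omega)
  obtain ⟨c, hc⟩ := (S.gap t).1 fun h3 => by
    have := le_sup (f := id) h3
    simp only [id] at this
    omega
  refine ⟨c • z ^ j, ?_⟩
  rw [deg_mon S hq hδ hB hz hb _ (S.ne_of_deg hc), S.dg_of_deg hc]
  congr 1
  omega

/-- the degree structure upstairs -/
theorem step : ∃ S' : DegStr k O',
    (∀ (n : ℕ) (c : O), c ≠ 0 → (S'.φ (c • z ^ n)).degree = (q * S.dg c + n * δ : ℕ)) ∧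
    ∀ a, a ≠ 0 → ∃ (c : O) (n : ℕ), c ≠ 0 ∧ (S'.φ a).degree = (q * S.dg c + n * δ : ℕ) := by
  have hq0 : 0 < q := by omega
  refine ⟨⟨phi S δ B, ?_, ?_, deg_mul S hq hδ hB hz hb, (finite_gap S hq hδ hB hz hb).toFinset,
    fun n => by simp⟩, fun n c hc => deg_mon S hq hδ hB hz hb n hc, fun a ha => ?_⟩
  · refine (injective_iff_map_eq_zero _).2 fun a ha => ?_
    by_contra h
    obtain ⟨c, j, -, -, h2⟩ := exists_lead S δ B hq0 hδ h
    simp [ha] at h2
  · have := phi_term S δ B 1 ⟨0, hq0⟩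
    simpa [hB, S.one] using this
  · obtain ⟨c, j, hc, h1, -⟩ := exists_lead S δ B hq0 hδ ha
    exact ⟨c, j, hc, h1.symm.trans (deg_term S δ B hq0 hc j)⟩

end Pool.Agent.FW
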