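import Pool.Agent.Lib.MP_2c63aa_nt.FW.Step

/-! The tower of Artin-Schreier covers given by the Lang map of the big Witt vectors. -/

namespace Pool.Agent.FW

open Polynomial Finset Module Pool.Agent.Lib.MP_639284_nt

/-- the equations of the cover of level `m` -/
def Pt {B : Type} [CommRing B] (q m : ℕ) (x : B) (u : ℕ → B) : Prop :=
  u 0 = 1 ∧ ∀ i < m, u (i + 1) ^ q = u (i + 1) - x * u i

variable {k O : Type} [Field k] [CommRing O] [Algebra k O]

/-- the coordinate ring of the cover of level `m` with its degree structure -/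
structure Tw (q m : ℕ) (S : DegStr k O) (x : O) (u : ℕ → O) : Prop where
  pt : Pt q m x u
  xne : x ≠ 0
  une : ∀ i ≤ m, u i ≠ 0
  mono : ∀ i < m, S.dg (u i) ≤ S.dg (u (i + 1))
  cop : (S.dg x + S.dg (u m)).Coprime q
  le : q * S.dg (u m) ≤ S.dg x + S.dg (u m)
  lift : ∀ (B : Type) [CommRing B] [Algebra k B] (x' : B) (u' : ℕ → B), Pt q m x' u' →
    ∃ τ : O →ₐ[k] B, τ x = x' ∧ ∀ i ≤ m, τ (u i) = u' i
  gen : ∀ a ≠ 0, ∃ μ ∈ Submonoid.closure (insert x (u '' Set.Iic m)), μ ≠ 0 ∧ S.dg μ = S.dg a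

theorem tw_zero (k : Type) [Field k] (q : ℕ) : Tw q 0 (lineStr k) X fun _ => 1 where
  pt := ⟨rfl, by simp⟩
  xne := X_ne_zero
  une := by simp
  mono := by simp
  cop := by simp [DegStr.dg, lineStr]
  le := by simp [DegStr.dg, lineStr]
  lift B _ _ x' u' h := ⟨aeval x', by simp, by simp [h.1]⟩
  gen a _ := ⟨X ^ a.natDegree, pow_mem (Submonoid.subset_closure (by simp)) _, by simp,
    by simp [DegStr.dg, lineStr]⟩

theorem Tw.succ {q m : ℕ} (hq : 1 < q) {S : DegStr k O} {x : O} {u : ℕ → O} (h : Tw q m S x u) :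
    ∃ (O' : Type) (_ : CommRing O') (_ : Algebra k O') (S' : DegStr k O') (x' : O') (u' : ℕ → O'),
      Tw q (m + 1) S' x' u' := by
  have := S.isDomain
  set f : O[X] := X ^ q - (X - C (x * u m)) with hf
  have hd : (X - C (x * u m) : O[X]).degree < q := by
    rw [degree_X_sub_C]
    exact_mod_cast hq
  have hm : f.Monic := monic_X_pow_sub hd
  have hn : f.natDegree = q := natDegree_eq_of_degree_eq_some (by
    rw [hf, degree_sub_eq_left_of_degree_lt (by rwa [degree_X_pow]), degree_X_pow])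
  set z := AdjoinRoot.root f
  let B : Basis (Fin q) O (AdjoinRoot f) := (AdjoinRoot.powerBasis' hm).basis.reindex (finCongr hn)
  have hB : ∀ j, B j = z ^ (j : ℕ) := fun j => by
    simp only [B, Basis.reindex_apply, PowerBasis.coe_basis]
    rfl
  have hz : z ^ q = z + algebraMap O (AdjoinRoot f) (-(x * u m)) := by
    have := AdjoinRoot.eval₂_root f
    rw [hf] at this
    simp only [eval₂_sub, eval₂_X_pow, eval₂_X, eval₂_C] at this
    rw [map_neg, AdjoinRoot.algebraMap_eq]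
    linear_combination this
  have hxu := mul_ne_zero h.xne (h.une m le_rfl)
  have hb : (S.φ (-(x * u m))).degree = (S.dg x + S.dg (u m) : ℕ) := by
    rw [map_neg, degree_neg, S.deg_eq hxu, S.dg_mul h.xne (h.une m le_rfl)]
  obtain ⟨S', h1, h2⟩ := step S hq h.cop hB hz hb
  set ι := algebraMap O (AdjoinRoot f) with hι
  have d0 : ∀ c, c ≠ 0 → (S'.φ (ι c)).degree = (q * S.dg c : ℕ) := fun c hc => by
    have := h1 0 c hc
    rwa [pow_zero, ← Algebra.algebraMap_eq_smul_one, zero_mul, add_zero] at this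
  have d1 : (S'.φ z).degree = (S.dg x + S.dg (u m) : ℕ) := by
    have := h1 1 1 one_ne_zero
    rwa [pow_one, one_smul, S.dg_one, mul_zero, zero_add, one_mul] at this
  have e1 : ∀ i ≤ m, (if i ≤ m then ι (u i) else z) = ι (u i) := fun i hi => if_pos hi
  have e2 : (if m + 1 ≤ m then ι (u (m + 1)) else z) = z := if_neg (by omega)
  refine ⟨AdjoinRoot f, inferInstance, inferInstance, S', ι x,
    fun i => if i ≤ m then ι (u i) else z, ⟨?_, fun i hi => ?_⟩, S'.ne_of_deg (d0 x h.xne),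
    fun i hi => ?_, fun i hi => ?_, ?_, ?_, fun B' _ _ x' u' hp => ?_, fun a ha => ?_⟩
  · simp [h.pt.1]
  · rcases Nat.lt_succ_iff_lt_or_eq.1 hi with hi | rfl
    · simp only [e1 i hi.le, e1 (i + 1) hi]
      rw [← map_pow, h.pt.2 i hi, map_sub, map_mul]
    · simp only [e1 i le_rfl, e2]
      rw [hz, map_neg, map_mul, sub_eq_add_neg]
  · rcases Nat.le_succ_iff.1 hi with hi | rfl
    · simp only [e1 i hi]
      exact S'.ne_of_deg (d0 _ (h.une i hi))
    · simp only [e2]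
      exact S'.ne_of_deg d1
  · rcases Nat.lt_succ_iff_lt_or_eq.1 hi with hi | rfl
    · simp only [e1 i hi.le, e1 (i + 1) hi]
      rw [S'.dg_of_deg (d0 _ (h.une i hi.le)), S'.dg_of_deg (d0 _ (h.une _ hi))]
      exact Nat.mul_le_mul_left _ (h.mono i hi)
    · simp only [e1 i le_rfl, e2]
      rw [S'.dg_of_deg (d0 _ (h.une i le_rfl)), S'.dg_of_deg d1]
      exact h.le
  · simp only [e2]
    rw [S'.dg_of_deg (d0 _ h.xne), S'.dg_of_deg d1]
    exact (Nat.coprime_mul_left_add_left _ _ _).2 h.cop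
  · simp only [e2]
    rw [S'.dg_of_deg (d0 _ h.xne), S'.dg_of_deg d1]
    have := h.le
    rw [mul_add]
    omega
  · obtain ⟨τ, t1, t2⟩ := h.lift B' x' u' ⟨hp.1, fun i hi => hp.2 i (by omega)⟩
    have hr : f.eval₂ (τ : O →+* B') (u' (m + 1)) = 0 := by
      rw [hf]
      simp only [eval₂_sub, eval₂_X_pow, eval₂_X, eval₂_C]
      rw [RingHom.coe_coe, map_mul, t1, t2 m le_rfl, hp.2 m (by omega), sub_self]
    refine ⟨AdjoinRoot.liftAlgHom f τ _ hr, by simp [hι, t1], fun i hi => ?_⟩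
    rcases Nat.le_succ_iff.1 hi with hi | rfl
    · simp [hi, hι, t2 i hi]
    · simp [z]
  · obtain ⟨c, n, hc, h3⟩ := h2 a ha
    obtain ⟨μ, m1, m2, m3⟩ := h.gen c hc
    have h4 := h1 n μ m2
    refine ⟨μ • z ^ n, ?_, S'.ne_of_deg h4, by rw [S'.dg_of_deg h4, S'.dg_of_deg h3, m3]⟩
    rw [Algebra.smul_def]
    refine Submonoid.mul_mem _ ?_ (Submonoid.pow_mem _ (Submonoid.subset_closure
      (Set.mem_insert_of_mem _ ((Set.mem_image _ _ _).2 ⟨m + 1, Set.self_mem_Iic, e2⟩))) _)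
    refine Submonoid.closure_induction (fun y hy => Submonoid.subset_closure ?_) (by simp)
      (fun y y' _ _ a b => by rw [map_mul]; exact mul_mem a b) m1
    rcases hy with rfl | ⟨i, hi, rfl⟩
    · exact Or.inl rfl
    · exact Or.inr ⟨i, Nat.le_succ_of_le hi, e1 i hi⟩

theorem exists_tw (k : Type) [Field k] {q : ℕ} (hq : 1 < q) (m : ℕ) :
    ∃ (O : Type) (_ : CommRing O) (_ : Algebra k O) (S : DegStr k O) (x : O) (u : ℕ → O),
      Tw q m S x u := by
  induction m with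
  | zero => exact ⟨_, _, _, _, _, _, tw_zero k q⟩
  | succ m ih =>
    obtain ⟨O, _, _, S, x, u, h⟩ := ih
    exact h.succ hq

variable {q m : ℕ} {S : DegStr k O} {x : O} {u : ℕ → O} (h : Tw q m S x u)
include h

/-- induction over combinations of monomials of bounded degree -/
theorem Tw.ind {P : O → ℕ → Prop} (h0 : ∀ n, P 0 n)
    (h1 : ∀ μ ∈ Submonoid.closure (insert x (u '' Set.Iic m)), P μ (S.dg μ + 1))
    (h2 : ∀ (c : k) (a b : O) (n : ℕ), P a n → P b (n + 1) → P (a + c • b) (n + 1))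
    (h3 : ∀ a n, P a n → P a (n + 1)) (n : ℕ) : ∀ a ∈ S.lt n, P a n := by
  induction n with
  | zero =>
    intro a ha
    rw [S.lt_zero, Submodule.mem_bot] at ha
    exact ha ▸ h0 0
  | succ n ih =>
    intro a ha
    by_cases hn : a ∈ S.lt n
    · exact h3 _ _ (ih a hn)
    have ha0 : a ≠ 0 := fun e => hn (e ▸ zero_mem _)
    obtain ⟨μ, m1, m2, m3⟩ := h.gen a ha0
    have e : S.dg μ = n := by
      have := S.mem_lt_succ.1 ha
      rw [S.mem_lt' ha0] at hn
      omega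
    obtain ⟨c, hc⟩ := S.exists_sub ha (e ▸ S.deg_eq m2)
    have := h2 c _ μ n (ih _ hc) (e ▸ h1 μ m1)
    rwa [sub_add_cancel] at this

theorem Tw.ext {B : Type} [CommRing B] [Algebra k B] {τ τ' : O →ₐ[k] B} (hx : τ x = τ' x)
    (hu : ∀ i ≤ m, τ (u i) = τ' (u i)) : τ = τ' := by
  ext a
  refine h.ind (P := fun a _ => τ a = τ' a) (by simp) (fun μ hμ => ?_)
    (fun c a b n e1 e2 => by simp only [map_add, map_smul, e1, e2]) (fun _ _ e => e) _ a
    (S.mem_lt_succ.2 le_rfl)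
  refine Submonoid.closure_induction (fun y hy => ?_) (by simp)
    (fun y y' _ _ a b => by rw [map_mul, map_mul, a, b]) hμ
  rcases hy with rfl | ⟨i, hi, rfl⟩
  · exact hx
  · exact hu i hi

theorem Tw.deg_le {σ : O →ₐ[k] O} (hx : S.dg (σ x) ≤ S.dg x)
    (hu : ∀ i ≤ m, S.dg (σ (u i)) ≤ S.dg (u i)) (a : O) :
    (S.φ (σ a)).degree ≤ (S.φ a).degree := by
  have := S.isDomain
  rcases eq_or_ne a 0 with rfl | ha
  · simp
  have key := h.ind (P := fun a n => σ a ∈ S.lt n) (by simp) (fun μ hμ => ?_)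
    (fun c a b n e1 e2 => by
      rw [map_add, map_smul]
      exact add_mem (S.lt_mono (Nat.le_succ _) e1) (Submodule.smul_mem _ _ e2))
    (fun _ _ e => S.lt_mono (Nat.le_succ _) e) _ a (S.mem_lt_succ.2 le_rfl)
  · rw [S.deg_eq ha]
    exact degree_le_of_natDegree_le (S.mem_lt_succ.1 key)
  rw [S.mem_lt_succ]
  refine (Submonoid.closure_induction (motive := fun μ _ => μ ≠ 0 ∧ S.dg (σ μ) ≤ S.dg μ)
    (fun y hy => ?_) (by simp) (fun y y' _ _ a b => ⟨mul_ne_zero a.1 b.1, ?_⟩) hμ).2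
  · rcases hy with rfl | ⟨i, hi, rfl⟩
    · exact ⟨h.xne, hx⟩
    · exact ⟨h.une i hi, hu i hi⟩
  · rw [map_mul, S.dg_mul a.1 b.1]
    rcases eq_or_ne (σ y * σ y') 0 with e | e
    · simp [e, S.dg_zero]
    · rw [S.dg_mul (left_ne_zero_of_mul e) (right_ne_zero_of_mul e)]
      exact add_le_add a.2 b.2

end Pool.Agent.FW
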